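import Mathlib
import Pool.Agent.Y316.EV.Stm

/-!
Existence of large codes.
-/

set_option autoImplicit false
namespace Pool.Agent.Y79.EV
open Finset

/-- existence of large codes -/
theorem code0 (V : Type) [Fintype V] (m : ℕ) : ∃ C : Finset (V → Fin m → ZMod 2), C.Nonempty ∧
    (∀ a ∈ C, ∀ b ∈ C, a ≠ b → (Fintype.card V : ℝ) / 4 ≤ ({v : V | a v ≠ b v}.ncard : ℝ)) ∧
    (Fintype.card V : ℝ) * ((m : ℝ) / 2 * Real.log 2 - 1) ≤ Real.log C.card := by
  classical
  obtain ⟨N, hN⟩ : ∃ N, N = Fintype.card V := ⟨_, rfl⟩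
  let dd : (V → Fin m → ZMod 2) → (V → Fin m → ZMod 2) → ℕ := fun a b =>
    (univ.filter fun v => a v ≠ b v).card
  have hdd : ∀ a b, {v : V | a v ≠ b v}.ncard = dd a b := by
    intro a b
    rw [Set.ncard_eq_toFinset_card']
    simp only [dd]
    congr 1
    ext v
    simp
  have hsymm : ∀ a b, dd a b = dd b a := by
    intro a b
    simp only [dd]
    congr 1
    ext v
    simp [eq_comm]
  let Good : Finset (V → Fin m → ZMod 2) → Prop := fun C =>
    ∀ a ∈ C, ∀ b ∈ C, a ≠ b → N ≤ 4 * dd a b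
  obtain ⟨C, hCm, hCmax⟩ := Finset.exists_max_image
    ((univ : Finset (Finset (V → Fin m → ZMod 2))).filter Good) Finset.card
    ⟨∅, by rw [Finset.mem_filter]; exact ⟨mem_univ _, fun a ha => absurd ha (Finset.notMem_empty _)⟩⟩
  have hC : Good C := (Finset.mem_filter.1 hCm).2
  have hcov : ∀ w, w ∉ C → ∃ c ∈ C, 4 * dd w c < N := by
    intro w hw
    by_contra hh
    push Not at hh
    have h1 : Good (insert w C) := by
      intro a ha b hb hab
      rw [Finset.mem_insert] at ha hb
      rcases ha with rfl | ha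
      · rcases hb with rfl | hb
        · exact absurd rfl hab
        · exact hh b hb
      · rcases hb with rfl | hb
        · rw [hsymm]
          exact hh a ha
        · exact hC a ha b hb hab
    have h2 := hCmax (insert w C) (Finset.mem_filter.2 ⟨mem_univ _, h1⟩)
    rw [Finset.card_insert_of_notMem hw] at h2
    omega
  have hCne : C.Nonempty := by
    by_contra hh
    rw [Finset.not_nonempty_iff_eq_empty] at hh
    obtain ⟨c, hc, -⟩ := hcov 0 (by rw [hh]; exact Finset.notMem_empty _)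
    rw [hh] at hc
    exact absurd hc (Finset.notMem_empty _)
  refine ⟨C, hCne, ?_, ?_⟩
  · intro a ha b hb hab
    have h1 := hC a ha b hb hab
    rw [hdd, ← hN]
    have h2 : (N : ℝ) ≤ 4 * (dd a b : ℝ) := by exact_mod_cast h1
    linarith
  rw [← hN]
  have hCc : (1 : ℝ) ≤ C.card := by exact_mod_cast hCne.card_pos
  rcases Nat.eq_zero_or_pos N with h0 | hpos
  · rw [h0]
    simp only [Nat.cast_zero, zero_mul]
    exact Real.log_nonneg hCc
  -- the weights
  obtain ⟨s, hs⟩ : ∃ s : ℝ, s = (Real.sqrt (1 / 2)) ^ m := ⟨_, rfl⟩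
  have hsq0 : 0 < Real.sqrt (1 / 2) := Real.sqrt_pos.2 (by norm_num)
  have hsq1 : Real.sqrt (1 / 2) ≤ 1 := Real.sqrt_le_one.2 (by norm_num)
  have hs0 : 0 < s := by rw [hs]; exact pow_pos hsq0 _
  have hs1 : s ≤ 1 := by rw [hs]; exact pow_le_one₀ hsq0.le hsq1
  obtain ⟨x, hx⟩ : ∃ x : ℝ, x = s ^ 4 := ⟨_, rfl⟩
  have hx0 : 0 < x := by rw [hx]; positivity
  have hxm : (2 : ℝ) ^ m * x ≤ 1 := by
    have h1 : Real.sqrt (1 / 2) ^ 4 = 1 / 4 := by
      have h2 : Real.sqrt (1 / 2) ^ 2 = 1 / 2 := Real.sq_sqrt (by norm_num)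
      calc Real.sqrt (1 / 2) ^ 4 = (Real.sqrt (1 / 2) ^ 2) ^ 2 := by ring
        _ = 1 / 4 := by rw [h2]; norm_num
    rw [hx, hs, ← pow_mul, mul_comm m 4, pow_mul, h1, ← mul_pow]
    exact pow_le_one₀ (by norm_num) (by norm_num)
  have hcardW : Fintype.card (Fin m → ZMod 2) = 2 ^ m := by
    rw [Fintype.card_fun, ZMod.card, Fintype.card_fin]
  have hsum : ∀ c : V → Fin m → ZMod 2, ∑ w : V → Fin m → ZMod 2, x ^ dd w c ≤ 2 ^ N := by
    intro c
    have h1 : ∀ w : V → Fin m → ZMod 2, x ^ dd w c = ∏ v, (if w v = c v then 1 else x) := by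
      intro w
      rw [Finset.prod_ite, Finset.prod_const_one, one_mul, Finset.prod_const]
    rw [Finset.sum_congr rfl fun w _ => h1 w]
    have h2 := Finset.prod_univ_sum (fun _ : V => (univ : Finset (Fin m → ZMod 2)))
      (fun v u => (if u = c v then (1 : ℝ) else x))
    rw [Fintype.piFinset_univ] at h2
    rw [← h2]
    have h3 : ∀ v : V, ∑ u : Fin m → ZMod 2, (if u = c v then (1 : ℝ) else x) ≤ 2 := by
      intro v
      have h4 : ∀ u : Fin m → ZMod 2, (if u = c v then (1 : ℝ) else x) ≤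
          (if u = c v then 1 else 0) + x := by
        intro u
        split_ifs
        · linarith
        · linarith
      refine (Finset.sum_le_sum fun u _ => h4 u).trans ?_
      rw [Finset.sum_add_distrib, Finset.sum_ite_eq' univ (c v), if_pos (mem_univ _),
        Finset.sum_const, Finset.card_univ, hcardW, nsmul_eq_mul]
      push_cast
      linarith
    calc ∏ v : V, ∑ u : Fin m → ZMod 2, (if u = c v then (1 : ℝ) else x)
        ≤ ∏ v : V, (2 : ℝ) := by
          refine Finset.prod_le_prod (fun v _ => Finset.sum_nonneg fun u _ => ?_) fun v _ => h3 v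
          split_ifs
          · norm_num
          · exact hx0.le
      _ = 2 ^ N := by rw [Finset.prod_const, Finset.card_univ, hN]
  have hball : ∀ c : V → Fin m → ZMod 2,
      ((univ.filter fun w => 4 * dd w c < N).card : ℝ) * s ^ N ≤ 2 ^ N := by
    intro c
    refine le_trans ?_ (hsum c)
    calc ((univ.filter fun w => 4 * dd w c < N).card : ℝ) * s ^ N
        = ∑ w ∈ univ.filter (fun w => 4 * dd w c < N), s ^ N := by
          rw [Finset.sum_const, nsmul_eq_mul]
      _ ≤ ∑ w ∈ univ.filter (fun w => 4 * dd w c < N), x ^ dd w c := by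
          refine Finset.sum_le_sum fun w hw => ?_
          rw [Finset.mem_filter] at hw
          rw [hx, ← pow_mul]
          exact pow_le_pow_of_le_one hs0.le hs1 hw.2.le
      _ ≤ ∑ w : V → Fin m → ZMod 2, x ^ dd w c :=
          Finset.sum_le_sum_of_subset_of_nonneg (Finset.filter_subset _ _)
            fun w _ _ => by positivity
  have hcover : (univ : Finset (V → Fin m → ZMod 2)) ⊆
      C.biUnion fun c => univ.filter fun w => 4 * dd w c < N := by
    intro w _
    rw [Finset.mem_biUnion]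
    by_cases hw : w ∈ C
    · refine ⟨w, hw, Finset.mem_filter.2 ⟨mem_univ _, ?_⟩⟩
      simp only [dd]
      simpa using hpos
    · obtain ⟨c, hc, h⟩ := hcov w hw
      exact ⟨c, hc, Finset.mem_filter.2 ⟨mem_univ _, h⟩⟩
  have hcount : ((2 : ℝ) ^ m) ^ N * s ^ N ≤ C.card * 2 ^ N := by
    have h1 : (Fintype.card (V → Fin m → ZMod 2)) ≤
        ∑ c ∈ C, (univ.filter fun w => 4 * dd w c < N).card :=
      (Finset.card_le_card hcover).trans Finset.card_biUnion_le
    have h2 : (Fintype.card (V → Fin m → ZMod 2)) = (2 ^ m) ^ N := by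
      rw [Fintype.card_fun, hcardW, hN]
    rw [h2] at h1
    have h3 : ((2 : ℝ) ^ m) ^ N ≤ ∑ c ∈ C, ((univ.filter fun w => 4 * dd w c < N).card : ℝ) := by
      exact_mod_cast h1
    calc ((2 : ℝ) ^ m) ^ N * s ^ N
        ≤ (∑ c ∈ C, ((univ.filter fun w => 4 * dd w c < N).card : ℝ)) * s ^ N := by gcongr
      _ = ∑ c ∈ C, ((univ.filter fun w => 4 * dd w c < N).card : ℝ) * s ^ N := by
          rw [Finset.sum_mul]
      _ ≤ ∑ c ∈ C, 2 ^ N := Finset.sum_le_sum fun c _ => hball c
      _ = C.card * 2 ^ N := by rw [Finset.sum_const, nsmul_eq_mul]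
  have hlog := Real.log_le_log (by positivity) hcount
  rw [Real.log_mul (by positivity) (by positivity), Real.log_mul (by positivity) (by positivity),
    Real.log_pow, Real.log_pow, Real.log_pow, Real.log_pow, hs, Real.log_pow,
    Real.log_sqrt (by norm_num), one_div, Real.log_inv] at hlog
  have hl2 : Real.log 2 ≤ 1 := by
    have := Real.log_two_lt_d9
    linarith
  have hNN : (0 : ℝ) ≤ N := Nat.cast_nonneg N
  have := mul_le_mul_of_nonneg_left hl2 hNN
  nlinarith

theorem code : Pool.Agent.Y316.EV.S_CODE := fun V _ m => code0 V m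

end Pool.Agent.Y79.EV
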